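import Pool.Agent.H220M.Fin5

/-!
Sign patterns of modifications of a sign function at a finite set of primes, through shattering.
-/

set_option autoImplicit false

namespace Pool.Agent.TH907.Cx

open Finset Pool.Agent.H220M

/-- a residue class on which prescribed distinct primes divide the consecutive integers exactly
once, and no other prime of `B` divides any of them -/
theorem exists_class (n : ℕ) (B : Finset ℕ) (hB : ∀ q ∈ B, q.Prime ∧ n < q) (p : Fin n → ℕ)
    (hinj : Function.Injective p) :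
    ∃ a : ℕ, ∀ m : ℕ, m ≡ a [MOD ∏ q ∈ B, q ^ 2] → ∀ (j : Fin n), ∀ q ∈ B,
      (m + j + 1).factorization q = if q = p j then 1 else 0 := by
  classical
  have h := Nat.chineseRemainderOfFinset
      (fun q : ℕ => if hq : ∃ j, p j = q then q ^ 2 + q - ((hq.choose : ℕ) + 1) else 0)
      (fun q : ℕ => q ^ 2) B
      (fun q hq => pow_ne_zero 2 (hB q hq).1.ne_zero)
      (by
        intro q hq q' hq' hpp
        simp only [Function.onFun]
        apply Nat.Coprime.pow
        rw [Nat.coprime_primes (hB _ hq).1 (hB _ hq').1]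
        exact hpp)
  refine ⟨h.1, ?_⟩
  intro m hm j q hq
  have hdvd : q ^ 2 ∣ ∏ q ∈ B, q ^ 2 := Finset.dvd_prod_of_mem (fun q => q ^ 2) hq
  have hmm := (hm.of_dvd hdvd).trans (h.2 q hq)
  obtain ⟨hp, hnq⟩ := hB q hq
  have hj := j.2
  by_cases hi : ∃ j, p j = q
  · simp only [hi, dif_pos] at hmm
    have hch0 : p hi.choose = q := hi.choose_spec
    set j' : Fin n := hi.choose with hj'def
    have hj' : p j' = q := hch0
    have hch : j' = j' := rfl
    have hj'lt := j'.2
    have hle : (j' : ℕ) + 1 ≤ q ^ 2 + q := by nlinarith [Nat.zero_le (q ^ 2)]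
    have h1 : m + (j' : ℕ) + 1 ≡ q [MOD q ^ 2] := by
      have h2 : m + ((j' : ℕ) + 1) ≡ (q ^ 2 + q - ((j' : ℕ) + 1)) + ((j' : ℕ) + 1) [MOD q ^ 2] :=
        hmm.add_right _
      rw [Nat.sub_add_cancel hle] at h2
      have h3 : q ^ 2 + q ≡ q [MOD q ^ 2] := by
        simp [Nat.ModEq]
      have h4 := h2.trans h3
      rw [← add_assoc] at h4
      exact h4
    by_cases hjj : j' = j
    · rw [if_pos (by rw [← hjj, hj'])]
      rw [← hjj]
      have hd1 : q ∣ m + (j' : ℕ) + 1 := by
        have h5 : m + (j' : ℕ) + 1 ≡ q [MOD q] := h1.of_dvd (Dvd.intro_left (q ^ 1) (by ring))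
        have h6 : q ≡ 0 [MOD q] := by simp [Nat.ModEq]
        exact (Nat.modEq_zero_iff_dvd).1 (h5.trans h6)
      have hd2 : ¬ q ^ 2 ∣ m + (j' : ℕ) + 1 := by
        intro hcon
        have h7 : q ^ 2 ∣ q := (Nat.ModEq.dvd_iff h1 dvd_rfl).1 hcon
        have h8 := Nat.le_of_dvd hp.pos h7
        have h9 := hp.two_le
        nlinarith
      have hne : m + (j' : ℕ) + 1 ≠ 0 := by omega
      apply le_antisymm
      · by_contra hlt
        push Not at hlt
        exact hd2 ((hp.pow_dvd_iff_le_factorization hne).2 hlt)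
      · exact (hp.pow_dvd_iff_le_factorization hne).1 (by simpa using hd1)
    · rw [if_neg (fun h => hjj (hinj (hj'.trans h)))]
      apply Nat.factorization_eq_zero_of_not_dvd
      intro hcon
      have h5 : m + (j' : ℕ) + 1 ≡ 0 [MOD q] :=
        (h1.of_dvd (Dvd.intro_left (q ^ 1) (by ring))).trans (by simp [Nat.ModEq])
      have hd1 : q ∣ m + (j' : ℕ) + 1 := (Nat.modEq_zero_iff_dvd).1 h5
      have hne : (j' : ℕ) ≠ (j : ℕ) := fun h => hjj (Fin.ext h)
      rcases lt_or_gt_of_ne hne with hlt | hlt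
      · have h6 : q ∣ (m + (j : ℕ) + 1) - (m + (j' : ℕ) + 1) := Nat.dvd_sub hcon hd1
        have h7 : (m + (j : ℕ) + 1) - (m + (j' : ℕ) + 1) = (j : ℕ) - (j' : ℕ) := by omega
        rw [h7] at h6
        have h8 := Nat.le_of_dvd (by omega) h6
        omega
      · have h6 : q ∣ (m + (j' : ℕ) + 1) - (m + (j : ℕ) + 1) := Nat.dvd_sub hd1 hcon
        have h7 : (m + (j' : ℕ) + 1) - (m + (j : ℕ) + 1) = (j' : ℕ) - (j : ℕ) := by omega
        rw [h7] at h6
        have h8 := Nat.le_of_dvd (by omega) h6
        omega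
  · simp only [hi, not_false_eq_true, dif_neg] at hmm
    rw [if_neg (fun h => hi ⟨j, h.symm⟩)]
    apply Nat.factorization_eq_zero_of_not_dvd
    intro hcon
    have h5 : q ∣ m := (Nat.modEq_zero_iff_dvd).1 (hmm.of_dvd (Dvd.intro_left (q ^ 1) (by ring)))
    have h6 : q ∣ (m + (j : ℕ) + 1) - m := Nat.dvd_sub hcon h5
    have h7 : (m + (j : ℕ) + 1) - m = (j : ℕ) + 1 := by omega
    rw [h7] at h6
    have h8 := Nat.le_of_dvd (by omega) h6
    omega

/-- a family of subsets of `B` which shatters no `n`-subset of `B` is small (Sauer–Shelah) -/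
theorem card_le_of_not_shatters (n : ℕ) (B : Finset ℕ) (A : Finset (Finset ℕ))
    (hA : ∀ S ∈ A, S ⊆ B) (hs : ∀ s : Finset ℕ, s ⊆ B → s.card = n → ¬ A.Shatters s) :
    A.card ≤ ∑ k ∈ range n, B.card.choose k := by
  classical
  refine (Finset.card_le_card_shatterer A).trans ?_
  have hsub : A.shatterer ⊆ (range n).biUnion fun k => B.powersetCard k := by
    intro s hsA
    rw [Finset.mem_shatterer] at hsA
    have hsB : s ⊆ B := by
      obtain ⟨t, ht, hst⟩ := hsA.exists_superset
      exact hst.trans (hA t ht)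
    rw [Finset.mem_biUnion]
    refine ⟨s.card, ?_, Finset.mem_powersetCard.2 ⟨hsB, rfl⟩⟩
    rw [Finset.mem_range]
    by_contra hcon
    push Not at hcon
    obtain ⟨s', hs', hc'⟩ := Finset.exists_subset_card_eq hcon
    exact hs s' (hs'.trans hsB) hc' (hsA.mono_right hs')
  refine (Finset.card_le_card hsub).trans (Finset.card_biUnion_le.trans ?_)
  refine Finset.sum_le_sum fun k _ => ?_
  rw [Finset.card_powersetCard]

/-- the subsets of `B` for which the pattern `t` is rare at the scale `x` -/
theorem bad_card (n : ℕ) (B : Finset ℕ) (hB : ∀ q ∈ B, q.Prime ∧ n < q) (g : ℕ → ℤˣ)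
    (t : Fin n → ℤˣ) (x : ℕ) (hx : (∏ q ∈ B, q ^ 2) ≤ x) :
    (B.powerset.filter (fun S =>
      cntU (fun m => g m * flipU S m) t x * (2 ^ n * (2 * ∏ q ∈ B, q ^ 2)) < x)).card
      ≤ ∑ k ∈ range n, B.card.choose k := by
  classical
  set M := ∏ q ∈ B, q ^ 2 with hM
  have hMpos : 0 < M := by
    rw [hM]
    exact Finset.prod_pos fun q hq => pow_pos (hB q hq).1.pos 2
  apply card_le_of_not_shatters n B
  · intro S hS
    exact Finset.mem_powerset.1 (Finset.mem_filter.1 hS).1
  intro s hsB hsn hsh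
  -- enumerate `s`
  have e : Fin n ≃ s := Fintype.equivOfCardEq (by simp [hsn])
  set p : Fin n → ℕ := fun j => (e j : ℕ) with hp
  have hinj : Function.Injective p := fun i j h => e.injective (Subtype.ext h)
  obtain ⟨a₀, ha₀⟩ := exists_class n B hB p hinj
  set a := a₀ % M with ha
  have haM : a < M := Nat.mod_lt _ hMpos
  set K := x / M with hK
  -- the patterns of `g` along the class
  let w : ℕ → (Fin n → ℤˣ) := fun k j => g (a + k * M + j + 1)
  obtain ⟨v, -, hv⟩ : ∃ v ∈ (univ : Finset (Fin n → ℤˣ)),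
      (K : ℕ) ≤ ((range K).filter (fun k => w k = v)).card * 2 ^ n := by
    by_contra hcon
    push Not at hcon
    have h1 : (range K).card = ∑ v : Fin n → ℤˣ, ((range K).filter (fun k => w k = v)).card :=
      Finset.card_eq_sum_card_fiberwise (fun k _ => Finset.mem_univ (w k))
    rw [Finset.card_range] at h1
    have h2 : (∑ v : Fin n → ℤˣ, ((range K).filter (fun k => w k = v)).card * 2 ^ n)
        < ∑ _v : Fin n → ℤˣ, K := by
      apply Finset.sum_lt_sum_of_nonempty
      · exact ⟨fun _ => 1, Finset.mem_univ _⟩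
      · exact fun v hv => hcon v hv
    rw [← Finset.sum_mul, ← h1, Finset.sum_const, Finset.card_univ, Fintype.card_fun,
      Fintype.card_units_int, Fintype.card_fin, smul_eq_mul, mul_comm] at h2
    exact lt_irrefl _ h2
  -- choose the member of the family
  obtain ⟨u, hu, hsu⟩ := hsh (show s.filter (fun q => ∃ j, p j = q ∧ v j ≠ t j) ⊆ s from
    Finset.filter_subset _ _)
  rw [Finset.mem_filter, Finset.mem_powerset] at hu
  obtain ⟨huB, hlt⟩ := hu
  have hmem : ∀ j, (p j ∈ u ↔ v j ≠ t j) := by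
    intro j
    have h1 : p j ∈ s ∩ u ↔ p j ∈ s.filter (fun q => ∃ j, p j = q ∧ v j ≠ t j) := by rw [hsu]
    rw [Finset.mem_inter, Finset.mem_filter] at h1
    have h2 : p j ∈ s := (e j).2
    simp only [h2, true_and] at h1
    rw [h1]
    constructor
    · rintro ⟨j', h3, h4⟩
      rw [hinj h3] at h4
      exact h4
    · intro h3
      exact ⟨j, rfl, h3⟩
  have hflip : ∀ (k : ℕ) (j : Fin n), flipU u (a + k * M + j + 1) = if p j ∈ u then -1 else 1 := by
    intro k j
    have hmod : a + k * M ≡ a₀ [MOD M] := by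
      rw [ha]
      simp [Nat.ModEq]
    unfold flipU
    have h1 : ∀ q ∈ u, (-1 : ℤˣ) ^ ((a + k * M + j + 1).factorization q)
        = if p j = q then -1 else 1 := by
      intro q hq
      rw [ha₀ _ hmod j q (huB hq)]
      by_cases h2 : q = p j
      · rw [if_pos h2, if_pos h2.symm, pow_one]
      · rw [if_neg h2, if_neg (fun h => h2 h.symm), pow_zero]
    rw [Finset.prod_congr rfl h1, Finset.prod_ite_eq]
  have hgood : ∀ k : ℕ, w k = v → ∀ j : Fin n,
      g (a + k * M + j + 1) * flipU u (a + k * M + j + 1) = t j := by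
    intro k hk j
    have h1 : g (a + k * M + j + 1) = v j := congrFun hk j
    rw [h1, hflip k j]
    by_cases h2 : v j = t j
    · rw [if_neg (fun h => (hmem j).1 h h2), mul_one, h2]
    · rw [if_pos ((hmem j).2 h2)]
      rcases Int.units_eq_one_or (v j) with h3 | h3 <;> rcases Int.units_eq_one_or (t j) with h4 | h4
      · exact absurd (h3.trans h4.symm) h2
      · rw [h3, h4]; rfl
      · rw [h3, h4]; rfl
      · exact absurd (h3.trans h4.symm) h2
  -- count
  have hcount : ((range K).filter (fun k => w k = v)).card ≤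
      cntU (fun m => g m * flipU u m) t x := by
    unfold cntU
    refine Finset.card_le_card_of_injOn (fun k => a + k * M) ?_ ?_
    · intro k hk
      rw [Finset.mem_coe, Finset.mem_filter, Finset.mem_range] at hk
      rw [Finset.mem_coe, Finset.mem_filter, Finset.mem_range]
      refine ⟨?_, fun j => hgood k hk.2 j⟩
      have h1 : (k + 1) * M ≤ K * M := Nat.mul_le_mul_right _ hk.1
      have h2 : K * M ≤ x := Nat.div_mul_le_self x M
      have h3 : (k + 1) * M = k * M + M := by ring
      show a + k * M < x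
      omega
    · intro k _ k' _ hkk
      have h1 : k * M = k' * M := by
        have h2 : a + k * M = a + k' * M := hkk
        omega
      exact Nat.eq_of_mul_eq_mul_right hMpos h1
  have h1 : K ≤ cntU (fun m => g m * flipU u m) t x * 2 ^ n :=
    hv.trans (Nat.mul_le_mul_right _ hcount)
  have h2 : x < (K + 1) * M := by
    rw [hK]
    rw [mul_comm]
    exact Nat.lt_mul_div_succ x hMpos
  have h3 : 1 ≤ K := (Nat.one_le_div_iff hMpos).2 hx
  have h4 : (K + 1) * M ≤ cntU (fun m => g m * flipU u m) t x * (2 ^ n * (2 * M)) := by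
    calc (K + 1) * M ≤ (2 * K) * M := Nat.mul_le_mul_right _ (by omega)
      _ = K * (2 * M) := by ring
      _ ≤ (cntU (fun m => g m * flipU u m) t x * 2 ^ n) * (2 * M) := Nat.mul_le_mul_right _ h1
      _ = _ := by ring
  omega

end Pool.Agent.TH907.Cx
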