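import Pool.Agent.TH907.Cx.Core

/-!
Block complexity of the modifications: finite sets of primes.
-/

set_option autoImplicit false

namespace Pool.Agent.TH907.Cx

open Finset Filter Pool.Agent.H220M

/-- The number of sign patterns of length `n` which occur in `f` at `m+1, …, m+n` for some
`m ≥ 1`. -/
noncomputable def blockComplexity (f : ℕ → ℤ) (n : ℕ) : ℕ :=
  {t : Fin n → ℤ | (∀ j, t j = 1 ∨ t j = -1) ∧ ∃ m : ℕ, 1 ≤ m ∧ ∀ j : Fin n, f (m + (j + 1)) = t j}.ncard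

theorem card_signs (n : ℕ) : {t : Fin n → ℤ | ∀ j, t j = 1 ∨ t j = -1}.ncard = 2 ^ n := by
  classical
  have h : {t : Fin n → ℤ | ∀ j, t j = 1 ∨ t j = -1}
      = Set.range (fun (u : Fin n → ℤˣ) (j : Fin n) => ((u j : ℤˣ) : ℤ)) := by
    ext t
    constructor
    · intro ht
      obtain ⟨u, hu⟩ := unit_of_pm t ht
      exact ⟨u, hu.symm⟩
    · rintro ⟨u, rfl⟩ j
      rcases Int.units_eq_one_or (u j) with h | h
      · left; simp [h]
      · right; simp [h]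
  rw [h, ← Set.image_univ, Set.ncard_image_of_injective, Set.ncard_univ, Nat.card_eq_fintype_card,
    Fintype.card_fun, Fintype.card_units_int, Fintype.card_fin]
  intro u v huv
  funext j
  exact Units.val_injective (congrFun huv j)

theorem blockComplexity_eq (f : ℕ → ℤ) (n : ℕ)
    (h : ∀ t : Fin n → ℤ, (∀ j, t j = 1 ∨ t j = -1) → ∃ m : ℕ, 1 ≤ m ∧
      ∀ j : Fin n, f (m + (j + 1)) = t j) : blockComplexity f n = 2 ^ n := by
  unfold blockComplexity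
  rw [← card_signs n]
  congr 1
  ext t
  exact ⟨fun ht => ht.1, fun ht => ⟨ht, h t ht⟩⟩

/-- elementary estimate for the tail of the binomial distribution -/
theorem binom_aux (n R : ℕ) (h : n ≤ R) :
    (∑ i ∈ range n, R.choose i) * 4 ^ (R - n) ≤ 5 ^ R := by
  have h1 : (5 : ℕ) ^ R = ∑ i ∈ range (R + 1), 1 ^ i * 4 ^ (R - i) * R.choose i := by
    rw [show (5 : ℕ) = 1 + 4 by norm_num, add_pow]
    rfl
  rw [h1, Finset.sum_mul]
  calc ∑ i ∈ range n, R.choose i * 4 ^ (R - n)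
      ≤ ∑ i ∈ range n, 1 ^ i * 4 ^ (R - i) * R.choose i := by
        refine Finset.sum_le_sum fun i hi => ?_
        rw [Finset.mem_range] at hi
        rw [one_pow, one_mul, mul_comm]
        exact Nat.mul_le_mul_right _ (Nat.pow_le_pow_right (by norm_num) (by omega))
    _ ≤ _ := Finset.sum_le_sum_of_subset (by
        intro i hi
        rw [Finset.mem_range] at hi ⊢
        omega)

theorem pow_aux (n k R : ℕ) (h : 5 * n + 2 * k ≤ R) : 10 ^ n * 2 ^ k * 5 ^ R ≤ 8 ^ R := by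
  obtain ⟨s, rfl⟩ := Nat.exists_eq_add_of_le h
  have e1 : (10 : ℕ) ^ n * 2 ^ k * 5 ^ (5 * n + 2 * k + s) = 31250 ^ n * 50 ^ k * 5 ^ s := by
    rw [pow_add, pow_add, pow_mul, pow_mul]
    calc (10 : ℕ) ^ n * 2 ^ k * ((5 ^ 5) ^ n * (5 ^ 2) ^ k * 5 ^ s)
        = (10 ^ n * (5 ^ 5) ^ n) * (2 ^ k * (5 ^ 2) ^ k) * 5 ^ s := by ring
      _ = _ := by rw [← mul_pow, ← mul_pow]; norm_num
  have e2 : (8 : ℕ) ^ (5 * n + 2 * k + s) = 32768 ^ n * 64 ^ k * 8 ^ s := by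
    rw [pow_add, pow_add, pow_mul, pow_mul]
    norm_num
  rw [e1, e2]
  gcongr <;> norm_num

theorem num (n k R : ℕ) (h : 5 * n + 2 * k ≤ R) :
    (2 : ℝ) ^ k * 2 ^ n * ((∑ i ∈ range n, R.choose i : ℕ) : ℝ) ≤ (4 / 5) ^ n * 2 ^ R := by
  have h1 := binom_aux n R (by omega)
  have h2 := pow_aux n k R h
  set Sg := ∑ i ∈ range n, R.choose i
  have h3 : ((Sg * 4 ^ (R - n) : ℕ) : ℝ) ≤ ((5 ^ R : ℕ) : ℝ) := by exact_mod_cast h1
  have h4 : ((10 ^ n * 2 ^ k * 5 ^ R : ℕ) : ℝ) ≤ ((8 ^ R : ℕ) : ℝ) := by exact_mod_cast h2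
  push_cast at h3 h4
  have h5 : (4 : ℝ) ^ (R - n) * 4 ^ n = 4 ^ R := by
    rw [← pow_add]; congr 1; omega
  have h6 : (8 : ℝ) ^ R = 2 ^ R * 4 ^ R := by rw [← mul_pow]; norm_num
  have h7 : (10 : ℝ) ^ n = 2 ^ n * 5 ^ n := by rw [← mul_pow]; norm_num
  have h45 : ((4 : ℝ) / 5) ^ n * 5 ^ n = 4 ^ n := by rw [← mul_pow]; norm_num
  have p4 : (0 : ℝ) < 4 ^ (R - n) := by positivity
  have p5 : (0 : ℝ) < 5 ^ n := by positivity
  have p4n : (0 : ℝ) < 4 ^ n := by positivity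
  -- multiply by 4^(R-n) * 5^n
  have key : (2 : ℝ) ^ k * 2 ^ n * (Sg : ℝ) * (4 ^ (R - n) * 5 ^ n)
      ≤ (4 / 5) ^ n * 2 ^ R * (4 ^ (R - n) * 5 ^ n) := by
    calc (2 : ℝ) ^ k * 2 ^ n * (Sg : ℝ) * (4 ^ (R - n) * 5 ^ n)
        = (2 ^ k * 2 ^ n * 5 ^ n) * ((Sg : ℝ) * 4 ^ (R - n)) := by ring
      _ ≤ (2 ^ k * 2 ^ n * 5 ^ n) * 5 ^ R := by
          exact mul_le_mul_of_nonneg_left h3 (by positivity)
      _ = 10 ^ n * 2 ^ k * 5 ^ R := by rw [h7]; ring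
      _ ≤ 8 ^ R := h4
      _ = 2 ^ R * (4 ^ (R - n) * 4 ^ n) := by rw [h5, h6]
      _ = 2 ^ R * (4 ^ (R - n) * ((4 / 5) ^ n * 5 ^ n)) := by rw [h45]
      _ = _ := by ring
  exact le_of_mul_le_mul_right key (by positivity)

/-- all patterns at once, and arbitrary primes besides those of `B` -/
theorem count_all (n : ℕ) (Q B : Finset ℕ) (hBQ : B ⊆ Q)
    (hB : ∀ q ∈ B, q.Prime ∧ n < q) (g : ℕ → ℤˣ) (x : ℕ) (hx : (∏ q ∈ B, q ^ 2) ≤ x) :
    (Q.powerset.filter (fun S => ∃ t : Fin n → ℤˣ,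
      cntU (fun m => g m * flipU S m) t x * (2 ^ n * (2 * ∏ q ∈ B, q ^ 2)) < x)).card
      ≤ 2 ^ n * (2 ^ (Q.card - B.card) * ∑ k ∈ range n, B.card.choose k) := by
  classical
  set M := ∏ q ∈ B, q ^ 2 with hM
  have hsub : Q.powerset.filter (fun S => ∃ t : Fin n → ℤˣ,
      cntU (fun m => g m * flipU S m) t x * (2 ^ n * (2 * M)) < x) ⊆
      (univ : Finset (Fin n → ℤˣ)).biUnion fun t => (Q \ B).powerset.biUnion fun U =>
        Q.powerset.filter (fun S => S \ B = U ∧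
          cntU (fun m => g m * flipU S m) t x * (2 ^ n * (2 * M)) < x) := by
    intro S hS
    rw [mem_filter, mem_powerset] at hS
    obtain ⟨hSQ, t, ht⟩ := hS
    simp only [mem_biUnion, mem_univ, true_and, mem_powerset, mem_filter]
    exact ⟨t, S \ B, sdiff_subset_sdiff hSQ le_rfl, hSQ, rfl, ht⟩
  refine (card_le_card hsub).trans ?_
  have hfib : ∀ (t : Fin n → ℤˣ) (U : Finset ℕ), (Q.powerset.filter (fun S => S \ B = U ∧
      cntU (fun m => g m * flipU S m) t x * (2 ^ n * (2 * M)) < x)).card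
        ≤ ∑ k ∈ range n, B.card.choose k := by
    intro t U
    have h := bad_card n B hB (fun m => g m * flipU U m) t x hx
    refine le_trans ?_ h
    refine card_le_card_of_injOn (fun S => S ∩ B) ?_ ?_
    · intro S hS
      rw [mem_coe, mem_filter] at hS
      obtain ⟨_, hSU, hlt⟩ := hS
      rw [mem_coe, mem_filter, mem_powerset]
      refine ⟨inter_subset_right, ?_⟩
      have he : (fun m => g m * flipU U m * flipU (S ∩ B) m) = fun m => g m * flipU S m := by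
        funext m
        rw [← hSU, mul_assoc]
        congr 1
        unfold flipU
        rw [← Finset.prod_union (Finset.disjoint_sdiff_inter S B), Finset.sdiff_union_inter]
      rw [he]
      exact hlt
    · intro S hS S' hS' hh
      rw [mem_coe, mem_filter] at hS hS'
      have h1 : S \ B = S' \ B := hS.2.1.trans hS'.2.1.symm
      have h2 : S ∩ B = S' ∩ B := hh
      rw [← Finset.sdiff_union_inter S B, ← Finset.sdiff_union_inter S' B, h1, h2]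
  calc _ ≤ ∑ t : Fin n → ℤˣ, ((Q \ B).powerset.biUnion fun U =>
        Q.powerset.filter (fun S => S \ B = U ∧
          cntU (fun m => g m * flipU S m) t x * (2 ^ n * (2 * M)) < x)).card := card_biUnion_le
    _ ≤ ∑ _t : Fin n → ℤˣ, ∑ _U ∈ (Q \ B).powerset, ∑ k ∈ range n, B.card.choose k :=
        sum_le_sum fun t _ => card_biUnion_le.trans (sum_le_sum fun U _ => hfib t U)
    _ = 2 ^ n * (2 ^ (Q.card - B.card) * ∑ k ∈ range n, B.card.choose k) := by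
        rw [sum_const, sum_const, card_powerset, card_sdiff_of_subset hBQ, card_univ,
          Fintype.card_fun, Fintype.card_units_int, Fintype.card_fin, smul_eq_mul, smul_eq_mul]

/-- one pattern, primes larger than its length: at each scale -/
theorem family_pattern (g : ℕ →*₀ ℤ) (hg : ∀ p : ℕ, p.Prime → g p = 1 ∨ g p = -1) (n : ℕ)
    (Q : Finset ℕ) (hQ : ∀ q ∈ Q, q.Prime ∧ n < q) (t : Fin n → ℤ) (ht : ∀ j, t j = 1 ∨ t j = -1) :
    (family g Q).Finite ∧ (family g Q).ncard = 2 ^ Q.card ∧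
    (∀ x : ℕ, (∏ q ∈ Q, q ^ 2) ≤ x →
      {f ∈ family g Q | cnt f t x * (2 ^ (n + 1) * ∏ q ∈ Q, q ^ 2) < x}.ncard
        ≤ ∑ k ∈ range n, Q.card.choose k) := by
  classical
  obtain ⟨g', hfin, hcardF, hbad⟩ := family_bad g hg Q (fun q hq => (hQ q hq).1)
  refine ⟨hfin, hcardF, fun x hx => ?_⟩
  obtain ⟨t', rfl⟩ := unit_of_pm t ht
  refine le_trans ?_ (bad_card n Q hQ g' t' x hx)
  apply hbad
  intro f S hS hf hlt
  rw [cnt_eq f (fun m => g' m * flipU S m) hf] at hlt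
  have e : (2 : ℕ) ^ n * (2 * ∏ q ∈ Q, q ^ 2) = 2 ^ (n + 1) * ∏ q ∈ Q, q ^ 2 := by
    rw [pow_succ]; ring
  rw [e]
  exact hlt

/-- passing from one scale to all large scales -/
theorem eventually_of_scale {A : Set (ℕ →*₀ ℤ)} (hA : A.Finite) (P : ℕ → (ℕ →*₀ ℤ) → Prop)
    (x₀ N : ℕ) (h : ∀ x ≥ x₀, {f ∈ A | P x f}.ncard ≤ N) :
    {f ∈ A | ∀ᶠ x : ℕ in atTop, P x f}.ncard ≤ N := by
  have hev : ∀ᶠ x : ℕ in atTop, ∀ f ∈ {f ∈ A | ∀ᶠ x : ℕ in atTop, P x f}, P x f := by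
    rw [Filter.eventually_all_finite (hA.subset (fun f hf => hf.1))]
    intro f hf
    exact hf.2
  obtain ⟨x, hxA, hxx⟩ := (hev.and (eventually_ge_atTop x₀)).exists
  refine le_trans ?_ (h x hxx)
  apply Set.ncard_le_ncard _ (hA.subset (fun f hf => hf.1))
  intro f hf
  exact ⟨hf.1, hxA f hf⟩

/-- all patterns -/
theorem family_all (g : ℕ →*₀ ℤ) (hg : ∀ p : ℕ, p.Prime → g p = 1 ∨ g p = -1) (n : ℕ)
    (Q B : Finset ℕ) (hQ : ∀ q ∈ Q, q.Prime) (hBQ : B ⊆ Q) (hB : ∀ q ∈ B, n < q) :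
    (∀ x : ℕ, (∏ q ∈ B, q ^ 2) ≤ x →
      {f ∈ family g Q | ∃ t : Fin n → ℤ, (∀ j, t j = 1 ∨ t j = -1) ∧
        cnt f t x * (2 ^ (n + 1) * ∏ q ∈ B, q ^ 2) < x}.ncard
        ≤ 2 ^ n * (2 ^ (Q.card - B.card) * ∑ k ∈ range n, B.card.choose k)) := by
  classical
  obtain ⟨g', hfin, hcardF, hbad⟩ := family_bad g hg Q hQ
  intro x hx
  refine le_trans ?_ (count_all n Q B hBQ (fun q hq => ⟨hQ q (hBQ hq), hB q hq⟩) g' x hx)
  apply hbad
  rintro f S hS hf ⟨t, ht, hlt⟩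
  obtain ⟨t', rfl⟩ := unit_of_pm t ht
  refine ⟨t', ?_⟩
  rw [cnt_eq f (fun m => g' m * flipU S m) hf] at hlt
  have e : (2 : ℕ) ^ n * (2 * ∏ q ∈ B, q ^ 2) = 2 ^ (n + 1) * ∏ q ∈ B, q ^ 2 := by
    rw [pow_succ]; ring
  rw [e]
  exact hlt

/-- two occurrences below `x` give one at a positive place -/
theorem occurs_of_cnt {n : ℕ} (f : ℕ →*₀ ℤ) (t : Fin n → ℤ) (x : ℕ) (h : 2 ≤ cnt f t x) :
    ∃ m : ℕ, 1 ≤ m ∧ m < x ∧ ∀ j : Fin n, f (m + (j + 1)) = t j := by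
  unfold cnt at h
  obtain ⟨a, ha, b, hb, hab⟩ := Finset.one_lt_card.1 h
  rw [mem_filter, mem_range] at ha hb
  rcases Nat.eq_zero_or_pos a with h0 | h0
  · exact ⟨b, by omega, hb.1, fun j => by rw [← add_assoc]; exact hb.2 j⟩
  · exact ⟨a, h0, ha.1, fun j => by rw [← add_assoc]; exact ha.2 j⟩

end Pool.Agent.TH907.Cx
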