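import Pool.Agent.TH907.Cx.Fam

/-!
Block complexity of the modifications: infinite sets of primes.
-/

set_option autoImplicit false

namespace Pool.Agent.TH907.Cx

open Finset Filter Pool.Agent.H220M MeasureTheory
open scoped ENNReal

/-- some pattern of length `n` is rare at scale `x` -/
def BadAt (n x c : ℕ) (h : ℕ → ℤˣ) : Prop := ∃ t : Fin n → ℤˣ, cntU h t x * c < x

theorem meas_badAt (g : ℕ → ℤˣ) (Q : Set ℕ) (n x c : ℕ) :
    MeasurableSet {ω : ℕ → Bool | BadAt n x c (modif g Q ω)} := by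
  have h : {ω : ℕ → Bool | BadAt n x c (modif g Q ω)} =
      ⋃ t : Fin n → ℤˣ, {ω : ℕ → Bool | cntU (modif g Q ω) t x * c < x} := by
    ext ω
    simp [BadAt]
  rw [h]
  refine MeasurableSet.iUnion fun t => ?_
  refine meas_of_dep _ (x + n + 1) ?_
  intro ω ω' h hω
  have he : cntU (modif g Q ω) t x = cntU (modif g Q ω') t x := by
    unfold cntU
    congr 1
    refine Finset.filter_congr fun m hm => ?_
    refine forall_congr' fun j => ?_
    have hm' := Finset.mem_range.1 hm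
    rw [modif_congr g Q (m := m + j + 1) (N := x + n + 1) (by omega) h]
  have hω' : cntU (modif g Q ω) t x * c < x := hω
  rw [he] at hω'
  exact hω'

theorem prob_bad (g : ℕ → ℤˣ) (Q : Set ℕ) (n : ℕ) (T : Finset ℕ) (hT : ∀ q ∈ T, q ∈ Q)
    (hp : ∀ q ∈ T, q.Prime ∧ n < q) (hc : 5 * n ≤ T.card) (x : ℕ) (hx : (∏ q ∈ T, q ^ 2) ≤ x) :
    coins {ω : ℕ → Bool | BadAt n x (2 ^ n * (2 * ∏ q ∈ T, q ^ 2)) (modif g Q ω)}
      ≤ ENNReal.ofReal ((4 / 5) ^ n) := by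
  classical
  refine tC0.2 g Q T (fun q hq => ⟨hT q hq, (hp q hq).1⟩)
    (BadAt n x (2 ^ n * (2 * ∏ q ∈ T, q ^ 2))) (meas_badAt g Q n x _) _ (by positivity) ?_
  intro g'
  have h1 := count_all n T T (Finset.Subset.refl _) hp g' x hx
  rw [Nat.sub_self, pow_zero, one_mul] at h1
  have h2 := num n 0 T.card (by omega)
  rw [pow_zero, one_mul] at h2
  refine le_trans ?_ h2
  have h3 : ((2 ^ n * ∑ k ∈ range n, T.card.choose k : ℕ) : ℝ)
      = 2 ^ n * ((∑ k ∈ range n, T.card.choose k : ℕ) : ℝ) := by push_cast; ring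
  rw [← h3, Nat.cast_le]
  refine le_trans (Finset.card_le_card ?_) h1
  intro S hS
  rw [mem_filter] at hS ⊢
  exact hS

/-- almost surely all patterns of every large length `n` occur below an explicit bound -/
theorem as_effective (g : ℕ →*₀ ℤ) (hg : ∀ p : ℕ, p.Prime → g p = 1 ∨ g p = -1)
    (Q : Set ℕ) (T : ℕ → Finset ℕ) (hT : ∀ n, ∀ q ∈ T n, q ∈ Q ∧ q.Prime ∧ n < q)
    (hc : ∀ n, 5 * n ≤ (T n).card) :
    ∀ᵐ ω ∂coins, ∀ f : ℕ →*₀ ℤ, IsModif g Q ω f → ∀ᶠ n : ℕ in atTop,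
      ∀ t : Fin n → ℤ, (∀ j, t j = 1 ∨ t j = -1) →
        ∃ m : ℕ, 1 ≤ m ∧ m < 2 ^ (n + 2) * ∏ q ∈ T n, q ^ 2 ∧ ∀ j : Fin n, f (m + (j + 1)) = t j := by
  obtain ⟨g', hg'⟩ := exists_unit g hg
  set X : ℕ → ℕ := fun n => 2 ^ (n + 2) * ∏ q ∈ T n, q ^ 2 with hX
  have hMpos : ∀ n, 0 < ∏ q ∈ T n, q ^ 2 := fun n =>
    Finset.prod_pos fun q hq => pow_pos (hT n q hq).2.1.pos 2
  have hMX : ∀ n, (∏ q ∈ T n, q ^ 2) ≤ X n := fun n => by
    rw [hX]
    exact Nat.le_mul_of_pos_left _ (by positivity)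
  have hsum : ∑' n, coins {ω : ℕ → Bool | BadAt n (X n) (2 ^ n * (2 * ∏ q ∈ T n, q ^ 2))
      (modif g' Q ω)} ≠ ∞ := by
    have h1 : ∑' n, coins {ω : ℕ → Bool | BadAt n (X n) (2 ^ n * (2 * ∏ q ∈ T n, q ^ 2))
      (modif g' Q ω)} ≤ ∑' n : ℕ, ENNReal.ofReal ((4 / 5) ^ n) :=
      ENNReal.tsum_le_tsum fun n => prob_bad g' Q n (T n) (fun q hq => (hT n q hq).1)
        (fun q hq => (hT n q hq).2) (hc n) (X n) (hMX n)
    refine ne_top_of_le_ne_top ?_ h1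
    rw [← ENNReal.ofReal_tsum_of_nonneg (fun n => by positivity)
      (summable_geometric_of_lt_one (by norm_num) (by norm_num))]
    exact ENNReal.ofReal_ne_top
  filter_upwards [ae_eventually_notMem hsum] with ω hω f hf
  obtain ⟨f', hf', hfm⟩ := isModif_exists g g' hg' Q ω
  have hff : f = f' := isModif_unique g Q ω f f' hf hf'
  subst hff
  filter_upwards [hω] with n hn t ht
  obtain ⟨t', rfl⟩ := unit_of_pm t ht
  have h1 : ¬ (cntU (modif g' Q ω) t' (X n) * (2 ^ n * (2 * ∏ q ∈ T n, q ^ 2)) < X n) :=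
    fun h => hn ⟨t', h⟩
  rw [← cnt_eq f (modif g' Q ω) hfm] at h1
  apply occurs_of_cnt
  by_contra hcon
  push Not at hcon
  apply h1
  have h2 : cnt f (fun j => ((t' j : ℤˣ) : ℤ)) (X n) ≤ 1 := by
    have : cnt f (fun j => ((t' j : ℤˣ) : ℤ)) (X n) < 2 := hcon
    omega
  calc cnt f (fun j => ((t' j : ℤˣ) : ℤ)) (X n) * (2 ^ n * (2 * ∏ q ∈ T n, q ^ 2))
      ≤ 1 * (2 ^ n * (2 * ∏ q ∈ T n, q ^ 2)) := Nat.mul_le_mul_right _ h2
    _ = 2 ^ (n + 1) * ∏ q ∈ T n, q ^ 2 := by rw [pow_succ]; ring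
    _ < 2 ^ (n + 2) * ∏ q ∈ T n, q ^ 2 :=
        Nat.mul_lt_mul_of_pos_right (Nat.pow_lt_pow_right (by norm_num) (by omega)) (hMpos n)
    _ = X n := rfl

end Pool.Agent.TH907.Cx
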