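import Pool.Agent.TH907.Cx.Inf

/-!
The bound for one pattern is attained by the constant function; the Liouville function.
-/

set_option autoImplicit false

namespace Pool.Agent.TH907.Cx

open Finset Filter Pool.Agent.H220M MeasureTheory

/-- with fewer than `n` flipped primes, all larger than `n`, there are no `n` consecutive `-1` -/
theorem no_run (n : ℕ) (S : Finset ℕ) (hS : ∀ q ∈ S, q.Prime ∧ n < q) (hc : S.card < n) (m : ℕ) :
    ∃ j : Fin n, flipU S (m + (j + 1)) ≠ -1 := by
  classical
  by_contra hcon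
  push Not at hcon
  have h1 : ∀ j : Fin n, ∃ q ∈ S, q ∣ m + ((j : ℕ) + 1) := by
    intro j
    by_contra h2
    push Not at h2
    have h3 := hcon j
    unfold flipU at h3
    rw [Finset.prod_eq_one] at h3
    · exact absurd h3 (by decide)
    · intro q hq
      rw [Nat.factorization_eq_zero_of_not_dvd (h2 q hq), pow_zero]
  choose p hpS hp using h1
  have hinj : Function.Injective p := by
    intro i j hij
    by_contra hne
    have hne' : (i : ℕ) ≠ (j : ℕ) := fun h => hne (Fin.ext h)
    have hi := hp i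
    have hj := hp j
    rw [← hij] at hj
    have hn := (hS _ (hpS i)).2
    have hi2 := i.2
    have hj2 := j.2
    rcases lt_or_gt_of_ne hne' with hlt | hlt
    · have h6 := Nat.dvd_sub hj hi
      have h7 : (m + ((j : ℕ) + 1)) - (m + ((i : ℕ) + 1)) = (j : ℕ) - (i : ℕ) := by omega
      rw [h7] at h6
      have h8 := Nat.le_of_dvd (by omega) h6
      omega
    · have h6 := Nat.dvd_sub hi hj
      have h7 : (m + ((i : ℕ) + 1)) - (m + ((j : ℕ) + 1)) = (i : ℕ) - (j : ℕ) := by omega
      rw [h7] at h6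
      have h8 := Nat.le_of_dvd (by omega) h6
      omega
  have h2 : (univ : Finset (Fin n)).card ≤ S.card :=
    Finset.card_le_card_of_injOn p (fun j _ => Finset.mem_coe.2 (hpS j)) hinj.injOn
  rw [Finset.card_univ, Fintype.card_fin] at h2
  omega

theorem sharp (g : ℕ →*₀ ℤ) (hg : ∀ p : ℕ, p.Prime → g p = 1) (n : ℕ) (Q : Finset ℕ)
    (hQ : ∀ q ∈ Q, q.Prime ∧ n < q) :
    {f ∈ family g Q | ∀ m : ℕ, ∃ j : Fin n, f (m + (j + 1)) ≠ -1}.ncard
      = ∑ k ∈ range n, Q.card.choose k := by
  classical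
  have hg' : ∀ p : ℕ, p.Prime → g p = 1 ∨ g p = -1 := fun p hp => Or.inl (hg p hp)
  apply le_antisymm
  · -- upper bound
    obtain ⟨hfin, -, hx⟩ := family_pattern g hg' n Q hQ (fun _ => -1) (fun _ => Or.inr rfl)
    refine le_trans (Set.ncard_le_ncard ?_ (hfin.subset (fun f hf => hf.1)))
      (hx (∏ q ∈ Q, q ^ 2) le_rfl)
    rintro f ⟨hf, hf2⟩
    refine ⟨hf, ?_⟩
    have h0 : cnt f (fun _ : Fin n => (-1 : ℤ)) (∏ q ∈ Q, q ^ 2) = 0 := by
      unfold cnt
      rw [Finset.card_eq_zero, Finset.filter_eq_empty_iff]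
      intro m _ hm
      obtain ⟨j, hj⟩ := hf2 m
      exact hj (by rw [← add_assoc]; exact hm j)
    rw [h0, zero_mul]
    exact Finset.prod_pos fun q hq => pow_pos (hQ q hq).1.pos 2
  · -- lower bound
    obtain ⟨g', F, h1, h2, h3⟩ := tF1 g hg' Q (fun q hq => (hQ q hq).1)
    have hfin : (family g Q).Finite := by
      rw [← h3.image_eq]
      exact (Finset.finite_toSet _).image _
    have hg1 : ∀ m : ℕ, m ≠ 0 → g m = 1 := by
      intro m hm
      rw [hom_eq_prod g hm]
      refine Finset.prod_eq_one fun p hp => ?_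
      rw [hg p (Nat.prime_of_mem_primeFactors hp), one_pow]
    have hgu : ∀ m : ℕ, m ≠ 0 → g' m = 1 := by
      intro m hm
      have h4 := h1 m hm
      rw [hg1 m hm] at h4
      exact Units.val_injective h4.symm
    set C : Finset (Finset ℕ) := (range n).biUnion fun k => Q.powersetCard k with hC
    have hCcard : C.card = ∑ k ∈ range n, Q.card.choose k := by
      rw [hC, Finset.card_biUnion]
      · exact Finset.sum_congr rfl fun k _ => Finset.card_powersetCard k Q
      · intro i _ j _ hij
        exact Finset.pairwise_disjoint_powersetCard Q hij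
    have hCQ : ∀ S ∈ C, S ⊆ Q ∧ S.card < n := by
      intro S hS
      rw [hC, Finset.mem_biUnion] at hS
      obtain ⟨k, hk, hS⟩ := hS
      rw [Finset.mem_powersetCard] at hS
      rw [Finset.mem_range] at hk
      exact ⟨hS.1, by omega⟩
    have hinj : Set.InjOn F (↑C : Set (Finset ℕ)) := by
      refine h3.injOn.mono ?_
      intro S hS
      exact Finset.mem_coe.2 (Finset.mem_powerset.2 (hCQ S (Finset.mem_coe.1 hS)).1)
    rw [← hCcard, ← Set.ncard_coe_finset, ← Set.ncard_image_of_injOn hinj]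
    refine Set.ncard_le_ncard ?_ (hfin.subset (fun f hf => hf.1))
    rintro f ⟨S, hS, rfl⟩
    obtain ⟨hSQ, hSn⟩ := hCQ S (Finset.mem_coe.1 hS)
    refine ⟨h3.mapsTo (Finset.mem_coe.2 (Finset.mem_powerset.2 hSQ)), fun m => ?_⟩
    obtain ⟨j, hj⟩ := no_run n S (fun q hq => hQ q (hSQ hq)) hSn m
    refine ⟨j, fun hcon => hj ?_⟩
    rw [h2 S hSQ _ (by omega), hgu _ (by omega), one_mul] at hcon
    exact Units.val_injective hcon

/-- the Liouville function as a completely multiplicative function -/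
theorem liouville_hom : ∃ L : ℕ →*₀ ℤ,
    (∀ m : ℕ, m ≠ 0 → L m = (-1) ^ (ArithmeticFunction.cardFactors m)) ∧
    ∀ p : ℕ, p.Prime → L p = 1 ∨ L p = -1 := by
  refine ⟨homOf (fun _ => -1), fun m hm => ?_, fun p hp => ?_⟩
  · rw [homOf_apply _ hm, Finset.prod_pow_eq_pow_sum,
      ArithmeticFunction.cardFactors_eq_sum_factorization, Finsupp.sum, Nat.support_factorization]
  · right
    exact homOf_prime _ hp

end Pool.Agent.TH907.Cx
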